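import Pool.Agent.helper73.AD.Basic

/-!
Module DT of project ad (MP_a29257_gt): determinant one for the arc matrices.
-/

namespace Pool.Agent.helper73.AD

theorem DT_exp_lc (x : ℝ) : Real.exp (lc x) = Real.cosh x := by
  unfold lc; rw [Real.exp_log (Real.cosh_pos x)]

theorem DT_exp_ls {x : ℝ} (hx : 0 < x) : Real.exp (ls x) = Real.sinh x := by
  unfold ls; rw [Real.exp_log (Real.sinh_pos_iff.mpr hx)]

/-- product of two hyperbolic cosines -/
theorem DT_cc (x y : ℝ) :
    Real.cosh x * Real.cosh y = (Real.cosh (x + y) + Real.cosh (x - y)) / 2 := by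
  rw [Real.cosh_add, Real.cosh_sub]; ring

/-- value of the diagonal entry of a seam -/
theorem DT_seam_diag (x y z : ℝ) (hx : 0 < x) (hy : 0 < y) :
    Real.exp (2 * ((lc ((x + y + z) / 4) + lc ((x + y - z) / 4) - ls (x / 2) - ls (y / 2)) / 2))
      = (Real.cosh ((x + y) / 2) + Real.cosh (z / 2)) / (2 * (Real.sinh (x / 2) * Real.sinh (y / 2))) := by
  have e1 : 2 * ((lc ((x + y + z) / 4) + lc ((x + y - z) / 4) - ls (x / 2) - ls (y / 2)) / 2)
      = lc ((x + y + z) / 4) + lc ((x + y - z) / 4) - ls (x / 2) - ls (y / 2) := by ring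
  rw [e1, Real.exp_sub, Real.exp_sub, Real.exp_add, DT_exp_lc, DT_exp_lc,
    DT_exp_ls (by positivity), DT_exp_ls (by positivity), DT_cc]
  have e2 : (x + y + z) / 4 + (x + y - z) / 4 = (x + y) / 2 := by ring
  have e3 : (x + y + z) / 4 - (x + y - z) / 4 = z / 2 := by ring
  rw [e2, e3]
  have h1 : Real.sinh (x / 2) ≠ 0 := (Real.sinh_pos_iff.mpr (by positivity)).ne'
  have h2 : Real.sinh (y / 2) ≠ 0 := (Real.sinh_pos_iff.mpr (by positivity)).ne'
  field_simp

/-- value of the product of the off diagonal entries of a seam -/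
theorem DT_seam_off (x y z : ℝ) (hx : 0 < x) (hy : 0 < y) :
    Real.exp ((lc ((x - y + z) / 4) + lc ((-x + y + z) / 4) - ls (x / 2) - ls (y / 2)) / 2
      + (lc ((x - y + z) / 4) + lc ((-x + y + z) / 4) - ls (x / 2) - ls (y / 2)) / 2)
      = (Real.cosh (z / 2) + Real.cosh ((x - y) / 2)) / (2 * (Real.sinh (x / 2) * Real.sinh (y / 2))) := by
  have e1 : (lc ((x - y + z) / 4) + lc ((-x + y + z) / 4) - ls (x / 2) - ls (y / 2)) / 2
      + (lc ((x - y + z) / 4) + lc ((-x + y + z) / 4) - ls (x / 2) - ls (y / 2)) / 2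
      = lc ((x - y + z) / 4) + lc ((-x + y + z) / 4) - ls (x / 2) - ls (y / 2) := by ring
  rw [e1, Real.exp_sub, Real.exp_sub, Real.exp_add, DT_exp_lc, DT_exp_lc,
    DT_exp_ls (by positivity), DT_exp_ls (by positivity), DT_cc]
  have e2 : (x - y + z) / 4 + (-x + y + z) / 4 = z / 2 := by ring
  have e3 : (x - y + z) / 4 - (-x + y + z) / 4 = (x - y) / 2 := by ring
  rw [e2, e3]
  have h1 : Real.sinh (x / 2) ≠ 0 := (Real.sinh_pos_iff.mpr (by positivity)).ne'
  have h2 : Real.sinh (y / 2) ≠ 0 := (Real.sinh_pos_iff.mpr (by positivity)).ne'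
  field_simp

/-- value of the diagonal entry of a wave -/
theorem DT_wave_diag (x y z : ℝ) (hx : 0 < x) :
    Real.exp (2 * (Real.log 2 + (lc ((x + y + z) / 4) + lc ((-x + y + z) / 4)
        + lc ((x - y + z) / 4) + lc ((x + y - z) / 4)) / 2 - ls (x / 2)))
      = ((Real.cosh ((y + z) / 2) + Real.cosh (x / 2)) * (Real.cosh (x / 2) + Real.cosh ((z - y) / 2)))
        / (Real.sinh (x / 2)) ^ 2 := by
  have e1 : 2 * (Real.log 2 + (lc ((x + y + z) / 4) + lc ((-x + y + z) / 4)
        + lc ((x - y + z) / 4) + lc ((x + y - z) / 4)) / 2 - ls (x / 2))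
      = (Real.log 2 + Real.log 2) + (lc ((x + y + z) / 4) + lc ((-x + y + z) / 4))
        + (lc ((x - y + z) / 4) + lc ((x + y - z) / 4)) - (ls (x / 2) + ls (x / 2)) := by ring
  rw [e1, Real.exp_sub, Real.exp_add, Real.exp_add, Real.exp_add, Real.exp_add, Real.exp_add,
    Real.exp_add, DT_exp_lc, DT_exp_lc, DT_exp_lc, DT_exp_lc, DT_exp_ls (by positivity),
    Real.exp_log (by norm_num : (0:ℝ) < 2), DT_cc, DT_cc]
  have e2 : (x + y + z) / 4 + (-x + y + z) / 4 = (y + z) / 2 := by ring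
  have e3 : (x + y + z) / 4 - (-x + y + z) / 4 = x / 2 := by ring
  have e4 : (x - y + z) / 4 + (x + y - z) / 4 = x / 2 := by ring
  have e5 : (x - y + z) / 4 - (x + y - z) / 4 = (z - y) / 2 := by ring
  rw [e2, e3, e4, e5]
  have h1 : Real.sinh (x / 2) ≠ 0 := (Real.sinh_pos_iff.mpr (by positivity)).ne'
  field_simp

/-- value of the product of the off diagonal entries of a wave -/
theorem DT_wave_off (x y z : ℝ) (hx : 0 < x) :
    Real.exp (Real.log (Real.cosh (y / 2) * Real.exp (-(x / 2)) + Real.cosh (z / 2)) - ls (x / 2)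
      + (Real.log (Real.cosh (y / 2) * Real.exp (x / 2) + Real.cosh (z / 2)) - ls (x / 2)))
      = ((Real.cosh (y / 2) * Real.exp (-(x / 2)) + Real.cosh (z / 2))
        * (Real.cosh (y / 2) * Real.exp (x / 2) + Real.cosh (z / 2))) / (Real.sinh (x / 2)) ^ 2 := by
  have p1 : 0 < Real.cosh (y / 2) * Real.exp (-(x / 2)) + Real.cosh (z / 2) := by
    have := Real.cosh_pos (y / 2); have := Real.cosh_pos (z / 2); positivity
  have p2 : 0 < Real.cosh (y / 2) * Real.exp (x / 2) + Real.cosh (z / 2) := by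
    have := Real.cosh_pos (y / 2); have := Real.cosh_pos (z / 2); positivity
  rw [Real.exp_add, Real.exp_sub, Real.exp_sub, Real.exp_log p1, Real.exp_log p2,
    DT_exp_ls (by positivity)]
  have h1 : Real.sinh (x / 2) ≠ 0 := (Real.sinh_pos_iff.mpr (by positivity)).ne'
  field_simp

theorem DT : DT_stmt := by
  intro J A q hq
  cases A with
  | seam a b c =>
    have ha := hq a
    have hb := hq b
    have s1 : 0 < Real.sinh (q a / 2) := Real.sinh_pos_iff.mpr (by positivity)
    have s2 : 0 < Real.sinh (q b / 2) := Real.sinh_pos_iff.mpr (by positivity)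
    refine ⟨rfl, ?_⟩
    simp only [Arc.g]
    rw [DT_seam_diag _ _ _ ha hb, DT_seam_off _ _ _ ha hb]
    rw [← sub_eq_iff_eq_add, ← sub_div]
    rw [div_eq_iff (by positivity)]
    have h1 : Real.cosh ((q a + q b) / 2) = Real.cosh (q a / 2) * Real.cosh (q b / 2)
        + Real.sinh (q a / 2) * Real.sinh (q b / 2) := by
      rw [← Real.cosh_add]; ring_nf
    have h2 : Real.cosh ((q a - q b) / 2) = Real.cosh (q a / 2) * Real.cosh (q b / 2)
        - Real.sinh (q a / 2) * Real.sinh (q b / 2) := by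
      rw [← Real.cosh_sub]; ring_nf
    rw [h1, h2]; ring
  | wave a b c =>
    have ha := hq a
    have s1 : 0 < Real.sinh (q a / 2) := Real.sinh_pos_iff.mpr (by positivity)
    refine ⟨rfl, ?_⟩
    simp only [Arc.g]
    rw [DT_wave_diag _ _ _ ha, DT_wave_off _ _ _ ha]
    rw [← sub_eq_iff_eq_add, ← sub_div]
    rw [div_eq_iff (by positivity)]
    have h1 : Real.cosh ((q b + q c) / 2) = Real.cosh (q b / 2) * Real.cosh (q c / 2)
        + Real.sinh (q b / 2) * Real.sinh (q c / 2) := by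
      rw [← Real.cosh_add]; ring_nf
    have h2 : Real.cosh ((q c - q b) / 2) = Real.cosh (q b / 2) * Real.cosh (q c / 2)
        - Real.sinh (q b / 2) * Real.sinh (q c / 2) := by
      have := Real.cosh_sub (q c / 2) (q b / 2)
      rw [show (q c - q b) / 2 = q c / 2 - q b / 2 by ring, this]; ring
    have h3 : Real.exp (-(q a / 2)) * Real.exp (q a / 2) = 1 := by
      rw [← Real.exp_add]; simp
    have h4 : Real.exp (-(q a / 2)) + Real.exp (q a / 2) = 2 * Real.cosh (q a / 2) := by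
      rw [Real.cosh_eq]; ring
    have h5 : Real.sinh (q a / 2) ^ 2 = Real.cosh (q a / 2) ^ 2 - 1 := by
      rw [Real.sinh_sq]
    have h6 : Real.sinh (q b / 2) ^ 2 = Real.cosh (q b / 2) ^ 2 - 1 := by
      rw [Real.sinh_sq]
    have h7 : Real.sinh (q c / 2) ^ 2 = Real.cosh (q c / 2) ^ 2 - 1 := by
      rw [Real.sinh_sq]
    rw [h1, h2]
    have h8 : (Real.cosh (q b / 2) * Real.exp (-(q a / 2)) + Real.cosh (q c / 2))
        * (Real.cosh (q b / 2) * Real.exp (q a / 2) + Real.cosh (q c / 2))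
        = Real.cosh (q b / 2) ^ 2 * (Real.exp (-(q a / 2)) * Real.exp (q a / 2))
          + Real.cosh (q b / 2) * Real.cosh (q c / 2)
            * (Real.exp (-(q a / 2)) + Real.exp (q a / 2)) + Real.cosh (q c / 2) ^ 2 := by ring
    rw [h8, h3, h4]
    have h9 : (Real.cosh (q b / 2) * Real.cosh (q c / 2) + Real.sinh (q b / 2) * Real.sinh (q c / 2)
          + Real.cosh (q a / 2)) * (Real.cosh (q a / 2) + (Real.cosh (q b / 2) * Real.cosh (q c / 2)
          - Real.sinh (q b / 2) * Real.sinh (q c / 2)))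
        = Real.cosh (q b / 2) ^ 2 * Real.cosh (q c / 2) ^ 2
          - Real.sinh (q b / 2) ^ 2 * Real.sinh (q c / 2) ^ 2 + Real.cosh (q a / 2) ^ 2
          + 2 * Real.cosh (q a / 2) * Real.cosh (q b / 2) * Real.cosh (q c / 2) := by ring
    rw [h9, h5, h6, h7]
    ring

end Pool.Agent.helper73.AD
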