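import Pool.Agent.helper73.AD.Basic

/-!
Module IV of project ad (MP_a29257_gt): the length function is constant in the directions of N.
-/

namespace Pool.Agent.helper73.AD

/-- the entries of an arc only depend on the lengths of the three cuffs -/
theorem IV_g {J : Type} (A : Arc J) (s s' : Bool) (q q' : J → ℝ) (h1 : q A.c1 = q' A.c1)
    (h2 : q A.c2 = q' A.c2) (h3 : q A.c3 = q' A.c3) : A.g s s' q = A.g s s' q' := by
  cases A with
  | seam a b c =>
    simp only [Arc.c1, Arc.c2, Arc.c3] at h1 h2 h3
    cases s <;> cases s' <;> simp only [Arc.g, h1, h2, h3]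
  | wave a b c =>
    simp only [Arc.c1, Arc.c2, Arc.c3] at h1 h2 h3
    cases s <;> cases s' <;> simp only [Arc.g, h1, h2, h3]

/-- the length function is invariant -/
theorem IV_H {J : Type} (w : Word J) (z x : PS J) (hx : x ∈ w.N) (s : ℝ) :
    w.H (z + s • x) = w.H z := by
  have ht : ∀ i, w.t i (z + s • x) = w.t i z := by
    intro i
    obtain ⟨h1, _, _, h4⟩ := hx i
    have h5 : x.1 (w.j i) = 0 := by
      rw [← w.src_eq i]
      have : (w.A i).src = (w.A i).c1 := by cases w.A i <;> rfl
      rw [this]; exact h1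
    unfold Word.t
    simp [h4, h5]
  have hL : ∀ σ, w.L σ (z + s • x) = w.L σ z := by
    intro σ
    unfold Word.L
    refine Finset.sum_congr rfl fun i _ => ?_
    obtain ⟨h1, h2, h3, _⟩ := hx i
    rw [ht i]
    congr 1
    refine IV_g _ _ _ _ _ ?_ ?_ ?_
    · simp [h1]
    · simp [h2]
    · simp [h3]
  have hF : w.F (z + s • x) = w.F z := by
    unfold Word.F Word.W
    simp only [hL]
  unfold Word.H
  rw [hF]

theorem IV : IV_stmt := by
  intro J _ _ w z _ x hx
  by_cases hd : DifferentiableAt ℝ w.H z
  · have h1 : HasDerivAt (fun s : ℝ => z + s • x) x 0 := by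
      have := ((hasDerivAt_id (0:ℝ)).smul_const x).const_add z
      simpa using this
    have h2 : HasDerivAt (fun s : ℝ => w.H (z + s • x)) (fderiv ℝ w.H z x) 0 := by
      have h3 : HasFDerivAt w.H (fderiv ℝ w.H z) (z + (0:ℝ) • x) := by
        simpa using hd.hasFDerivAt
      exact h3.comp_hasDerivAt (0:ℝ) h1
    have h4 : (fun s : ℝ => w.H (z + s • x)) = fun _ => w.H z := by
      funext s; exact IV_H w z x hx s
    rw [h4] at h2
    exact h2.unique (hasDerivAt_const _ _)
  · rw [fderiv_zero_of_not_differentiableAt hd]; rfl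

end Pool.Agent.helper73.AD
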