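import Pool.Agent.helper11.AD.DT

/-!
Module LB of project ad (MP_a29257_gt): lower bound of the diagonal entries.
-/

namespace Pool.Agent.helper73.AD

/-- hyperbolic sine below x times hyperbolic cosine -/
theorem LB_sinh_le {x : ℝ} (hx : 0 ≤ x) : Real.sinh x ≤ x * Real.cosh x := by
  have hmono : MonotoneOn (fun x : ℝ => x * Real.cosh x - Real.sinh x) (Set.Ici 0) := by
    refine monotoneOn_of_deriv_nonneg (convex_Ici 0) ?_ ?_ ?_
    · exact (continuous_id.mul Real.continuous_cosh |>.sub Real.continuous_sinh).continuousOn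
    · intro y _
      exact ((differentiable_id.mul Real.differentiable_cosh).sub
        Real.differentiable_sinh).differentiableAt.differentiableWithinAt
    · intro y hy
      rw [interior_Ici] at hy
      have hy' : 0 < y := hy
      have hd : HasDerivAt (fun x : ℝ => x * Real.cosh x - Real.sinh x)
          (1 * Real.cosh y + y * Real.sinh y - Real.cosh y) y :=
        ((hasDerivAt_id y).mul (Real.hasDerivAt_cosh y)).sub (Real.hasDerivAt_sinh y)
      rw [hd.deriv]
      have := Real.sinh_pos_iff.mpr hy'
      nlinarith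
  have := hmono (Set.mem_Ici.mpr le_rfl) (Set.mem_Ici.mpr hx) hx
  simp at this
  linarith

theorem LB : LB_stmt := by
  intro J A q hq
  cases A with
  | seam a b c =>
    have ha := hq a
    have hb := hq b
    have s1 : 0 < Real.sinh (q a / 2) := Real.sinh_pos_iff.mpr (by positivity)
    have s2 : 0 < Real.sinh (q b / 2) := Real.sinh_pos_iff.mpr (by positivity)
    have s3 : Real.sinh (q a / 2) ≤ q a / 2 * Real.cosh (q a / 2) := LB_sinh_le (by positivity)
    have s4 : Real.sinh (q b / 2) ≤ Real.cosh (q b / 2) := (Real.sinh_lt_cosh _).le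
    have hc := Real.cosh_pos (q c / 2)
    simp only [Arc.g, Arc.src]
    rw [DT_seam_diag _ _ _ ha hb]
    have h1 : Real.cosh ((q a + q b) / 2) = Real.cosh (q a / 2) * Real.cosh (q b / 2)
        + Real.sinh (q a / 2) * Real.sinh (q b / 2) := by
      rw [← Real.cosh_add]; ring_nf
    rw [div_le_div_iff₀ ha (by positivity), h1]
    have h2 : Real.sinh (q a / 2) * Real.sinh (q b / 2)
        ≤ (q a / 2 * Real.cosh (q a / 2)) * Real.cosh (q b / 2) := by
      have := Real.cosh_pos (q a / 2)
      gcongr
    have h3 : 0 ≤ (Real.sinh (q a / 2) * Real.sinh (q b / 2) + Real.cosh (q c / 2)) * q a := by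
      positivity
    nlinarith
  | wave a b c =>
    have ha := hq a
    have s1 : 0 < Real.sinh (q a / 2) := Real.sinh_pos_iff.mpr (by positivity)
    have s3 : Real.sinh (q a / 2) ≤ q a / 2 * Real.cosh (q a / 2) := LB_sinh_le (by positivity)
    have s4 : Real.sinh (q a / 2) ≤ Real.cosh (q a / 2) := (Real.sinh_lt_cosh _).le
    simp only [Arc.g, Arc.src]
    rw [DT_wave_diag _ _ _ ha]
    rw [div_le_div_iff₀ ha (by positivity)]
    have c1 := Real.one_le_cosh (q a / 2)
    have c2 := Real.one_le_cosh ((q b + q c) / 2)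
    have c3 := Real.one_le_cosh ((q c - q b) / 2)
    have h2 : Real.sinh (q a / 2) ^ 2 ≤ (q a / 2 * Real.cosh (q a / 2)) * Real.cosh (q a / 2) := by
      have := Real.cosh_pos (q a / 2)
      rw [pow_two]
      gcongr
    have h3 : Real.cosh (q a / 2) * Real.cosh (q a / 2)
        ≤ (Real.cosh ((q b + q c) / 2) + Real.cosh (q a / 2))
          * (Real.cosh (q a / 2) + Real.cosh ((q c - q b) / 2)) := by
      gcongr <;> linarith
    nlinarith

end Pool.Agent.helper73.AD
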