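import Pool.Agent.helper11.AD.LB

/-!
Module QB of project ad (MP_a29257_gt): lower bound of the lengths of the crossed curves.
-/

namespace Pool.Agent.helper73.AD

theorem QB_of (hBF : BF_stmt) : QB_stmt := by
  intro J _ _ w z hz i
  obtain ⟨-, -, -, -, -, -, -, hP, -⟩ := hBF J w z hz
  have hg : ∀ i, 0 < (w.A i).g true true z.1 := by
    intro i
    have h1 := (DT J (w.A i) z.1 hz).2
    have h2 : 1 < Real.exp (2 * (w.A i).g true true z.1) := by
      rw [h1]; have := Real.exp_pos ((w.A i).g true false z.1 + (w.A i).g false true z.1); linarith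
    have h3 : 0 < 2 * (w.A i).g true true z.1 := Real.one_lt_exp_iff.mp h2
    linarith
  have h1 : (w.A i).g true true z.1 ≤ w.lP z :=
    Finset.single_le_sum (f := fun i => (w.A i).g true true z.1) (fun i _ => (hg i).le)
      (Finset.mem_univ i)
  have h2 := LB J (w.A i) z.1 hz
  rw [w.src_eq i] at h2
  have h3 : Real.exp (2 * (w.A i).g true true z.1) ≤ Real.cosh (w.H z / 2) ^ 2 := by
    calc Real.exp (2 * (w.A i).g true true z.1) ≤ Real.exp (2 * w.lP z) := by
          apply Real.exp_le_exp.mpr; linarith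
      _ = Real.exp (w.lP z) ^ 2 := by rw [← Real.exp_nat_mul]; norm_num
      _ ≤ Real.cosh (w.H z / 2) ^ 2 := by gcongr
  have hq : 0 < z.1 (w.j i) := hz (w.j i)
  have hc : 0 < Real.cosh (w.H z / 2) ^ 2 := by have := Real.cosh_pos (w.H z / 2); positivity
  rw [div_le_iff₀ hc]
  have h4 := h2.trans h3
  rw [div_le_iff₀ hq] at h4
  linarith

end Pool.Agent.helper73.AD
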